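import Pool.Agent.Q215.Chg.Weight

open MeasureTheory Finset ProbabilityTheory

namespace Pool.Agent.Q215.Chg

/-- The properties of the tilted charge law that are used. -/
structure Good (μ : Measure ℝ) (δ L : ℝ) : Prop where
  prob : IsProbabilityMeasure μ
  exps : ∀ t : ℝ, Integrable (fun x => Real.exp (t * x)) μ
  hL : 0 ≤ L
  r0 : ∫ x, Real.exp (L - δ * x) ∂μ = 1
  r1 : ∫ x, Real.exp (L - δ * x) * x ∂μ = 0
  r2 : ∫ x, Real.exp (L - δ * x) * x ^ 2 ∂μ = 1

variable {μ : Measure ℝ} {δ L : ℝ}

lemma Good.int_pow (h : Good μ δ L) (t : ℝ) (k : ℕ) :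
    Integrable (fun x => Real.exp (t * x) * x ^ k) μ := by
  have h1 : integrableExpSet (fun x : ℝ => x) μ = Set.univ := by
    ext v
    simp only [Set.mem_univ, iff_true]
    exact h.exps v
  have h2 := integrable_pow_mul_exp_of_mem_interior_integrableExpSet (X := fun x : ℝ => x)
    (v := t) (μ := μ) (by rw [h1]; simp) k
  refine h2.congr (Filter.Eventually.of_forall fun x => ?_)
  simp only []
  ring

lemma Good.int_rho (h : Good μ δ L) (k : ℕ) :
    Integrable (fun x => Real.exp (L - δ * x) * x ^ k) μ := by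
  refine ((h.int_pow (-δ) k).const_mul (Real.exp L)).congr (Filter.Eventually.of_forall fun x => ?_)
  simp only []
  rw [← mul_assoc, ← Real.exp_add]
  congr 2
  ring

section

variable {I J : Type*} [Fintype I] [Fintype J]

lemma Good.memLp (h : Good μ δ L) (i : I) :
    MemLp (fun ω : I → ℝ => ω i) 2 (Measure.pi fun _ : I => μ) := by
  have := h.prob
  have h1 : MemLp (fun x : ℝ => x) 2 μ := by
    rw [memLp_two_iff_integrable_sq (by fun_prop)]
    have := h.int_pow 0 2
    simpa using this
  exact h1.comp_measurePreserving (measurePreserving_eval (fun _ : I => μ) i)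

lemma Good.int_one (h : Good μ δ L) (i : I) :
    Integrable (fun ω : I → ℝ => ω i) (Measure.pi fun _ : I => μ) := by
  have := h.prob
  exact (h.memLp i).integrable (by norm_num)

lemma Good.int_mul (h : Good μ δ L) (i j : I) :
    Integrable (fun ω : I → ℝ => ω i * ω j) (Measure.pi fun _ : I => μ) := by
  have := h.prob
  exact (h.memLp i).integrable_mul (h.memLp j)

variable {V : Type*} [DecidableEq V]

lemma Good.int_En (h : Good μ δ L) (p : I → V) :
    Integrable (fun ω : I → ℝ => En p ω) (Measure.pi fun _ : I => μ) := by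
  unfold En Bf
  refine integrable_finsetSum _ fun i _ => integrable_finsetSum _ fun j _ => ?_
  split_ifs
  · exact h.int_mul i j
  · simp

lemma exp_En_le {β : ℝ} (hβ : 0 ≤ β) (p : I → V) (ω : I → ℝ) :
    Real.exp (-β * En p ω) ≤ 1 := by
  rw [Real.exp_le_one_iff]
  have := En_nonneg p ω
  nlinarith [mul_nonneg hβ this]

lemma Good.int_wt (h : Good μ δ L) {β : ℝ} (hβ : 0 ≤ β) (p : I → V) {f : (I → ℝ) → ℝ}
    (hf : Integrable f (Measure.pi fun _ : I => μ)) :
    Integrable (fun ω : I → ℝ => Real.exp (-β * En p ω) * f ω) (Measure.pi fun _ : I => μ) := by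
  have := h.prob
  refine hf.bdd_mul (c := 1) ?_ ?_
  · exact (Real.continuous_exp.comp ((continuous_const).mul (continuous_En p))).aestronglyMeasurable
  · refine Filter.Eventually.of_forall fun ω => ?_
    rw [Real.norm_eq_abs, abs_of_pos (Real.exp_pos _)]
    exact exp_En_le hβ p ω

lemma Good.int_exp (h : Good μ δ L) {β : ℝ} (hβ : 0 ≤ β) (p : I → V) :
    Integrable (fun ω : I → ℝ => Real.exp (-β * En p ω)) (Measure.pi fun _ : I => μ) := by
  have := h.prob
  have := h.int_wt hβ p (f := fun _ => (1 : ℝ)) (integrable_const _)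
  simpa using this

/-- The weight of a labelled set of positions. -/
noncomputable def Wt (μ : Measure ℝ) (β : ℝ) (p : I → V) : ℝ :=
  ∫ ω : I → ℝ, Real.exp (-β * En p ω) ∂(Measure.pi fun _ : I => μ)

/-- The unnormalised integral of a function against the weight. -/
noncomputable def Gi (μ : Measure ℝ) (β : ℝ) (p : I → V) (f : (I → ℝ) → ℝ) : ℝ :=
  ∫ ω : I → ℝ, Real.exp (-β * En p ω) * f ω ∂(Measure.pi fun _ : I => μ)

/-- The mean charges. -/
noncomputable def av (μ : Measure ℝ) (β : ℝ) (p : I → V) (i : I) : ℝ :=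
  Gi μ β p (fun ω => ω i) / Wt μ β p

lemma Good.Wt_le_one (h : Good μ δ L) {β : ℝ} (hβ : 0 ≤ β) (p : I → V) : Wt μ β p ≤ 1 := by
  have := h.prob
  have : Wt μ β p ≤ ∫ ω : I → ℝ, (1 : ℝ) ∂(Measure.pi fun _ : I => μ) :=
    integral_mono (h.int_exp hβ p) (integrable_const _) fun ω => exp_En_le hβ p ω
  simpa using this

lemma Good.int_R (h : Good μ δ L) :
    Integrable (fun ω : I → ℝ => ∏ k, Real.exp (L - δ * ω k)) (Measure.pi fun _ : I => μ) := by
  have := h.prob
  refine Integrable.fintype_prod (f := fun _ : I => fun x : ℝ => Real.exp (L - δ * x)) fun i => ?_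
  simpa using h.int_rho 0

lemma Good.R_one (h : Good μ δ L) :
    ∫ ω : I → ℝ, ∏ k, Real.exp (L - δ * ω k) ∂(Measure.pi fun _ : I => μ) = 1 := by
  have := h.prob
  rw [integral_fintype_prod_eq_prod (fun _ : I => fun x : ℝ => Real.exp (L - δ * x))]
  simp [h.r0]

/-- Auxiliary factor. -/
noncomputable def gf (δ L : ℝ) [DecidableEq I] (i j k : I) (x : ℝ) : ℝ :=
  Real.exp (L - δ * x) * ((if k = i then x else 1) * (if k = j then x else 1))

lemma prod_gf [DecidableEq I] (i j : I) (ω : I → ℝ) :
    ∏ k, gf δ L i j k (ω k) = (∏ k, Real.exp (L - δ * ω k)) * (ω i * ω j) := by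
  unfold gf
  rw [Finset.prod_mul_distrib, Finset.prod_mul_distrib]
  congr 1
  simp

lemma Good.int_gf [DecidableEq I] (h : Good μ δ L) (i j k : I) : Integrable (gf δ L i j k) μ := by
  unfold gf
  by_cases h1 : k = i
  · by_cases h2 : k = j
    · simp only [h1, if_true]
      rw [h1] at h2
      simp only [h2, if_true]
      refine (h.int_rho 2).congr (Filter.Eventually.of_forall fun x => ?_)
      simp only []
      ring
    · simp only [h1, if_true]
      rw [h1] at h2
      simp only [h2, if_false]
      refine (h.int_rho 1).congr (Filter.Eventually.of_forall fun x => ?_)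
      simp only []
      ring
  · by_cases h2 : k = j
    · simp only [h1, if_false, h2, if_true]
      rw [h2] at h1
      simp only [h1, if_false]
      refine (h.int_rho 1).congr (Filter.Eventually.of_forall fun x => ?_)
      simp only []
      ring
    · simp only [h1, h2, if_false]
      refine (h.int_rho 0).congr (Filter.Eventually.of_forall fun x => ?_)
      simp only []
      ring

lemma Good.int_R2 (h : Good μ δ L) (i j : I) :
    Integrable (fun ω : I → ℝ => (∏ k, Real.exp (L - δ * ω k)) * (ω i * ω j))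
      (Measure.pi fun _ : I => μ) := by
  classical
  have := h.prob
  simp only [← prod_gf]
  exact Integrable.fintype_prod (f := fun k : I => gf δ L i j k) fun k => h.int_gf i j k

lemma Good.R2 [DecidableEq I] (h : Good μ δ L) (i j : I) :
    ∫ ω : I → ℝ, (∏ k, Real.exp (L - δ * ω k)) * (ω i * ω j) ∂(Measure.pi fun _ : I => μ) =
      if i = j then 1 else 0 := by
  have := h.prob
  simp only [← prod_gf]
  rw [integral_fintype_prod_eq_prod (fun k : I => gf δ L i j k)]
  by_cases hij : i = j
  · subst hij
    simp only [if_true]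
    refine Finset.prod_eq_one fun k _ => ?_
    by_cases hk : k = i
    · subst hk
      rw [← h.r2]
      refine integral_congr_ae (Filter.Eventually.of_forall fun x => ?_)
      simp only [gf, if_true]
      ring
    · rw [← h.r0]
      refine integral_congr_ae (Filter.Eventually.of_forall fun x => ?_)
      simp only [gf, hk, if_false]
      ring
  · simp only [hij, if_false]
    refine Finset.prod_eq_zero (Finset.mem_univ i) ?_
    rw [← h.r1]
    refine integral_congr_ae (Filter.Eventually.of_forall fun x => ?_)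
    simp only [gf, hij, if_true, if_false]
    ring

lemma Good.int_R1 (h : Good μ δ L) (i : I) :
    Integrable (fun ω : I → ℝ => (∏ k, Real.exp (L - δ * ω k)) * ω i)
      (Measure.pi fun _ : I => μ) := by
  classical
  have := h.prob
  have h1 : ∀ ω : I → ℝ, (∏ k, Real.exp (L - δ * ω k)) * ω i =
      ∏ k, (fun k x => Real.exp (L - δ * x) * (if k = i then x else 1)) k (ω k) := by
    intro ω
    simp only []
    rw [Finset.prod_mul_distrib]
    simp
  simp only [h1]
  refine Integrable.fintype_prod
    (f := fun (k : I) (x : ℝ) => Real.exp (L - δ * x) * (if k = i then x else 1)) fun k => ?_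
  by_cases hk : k = i
  · simp only [hk, if_true]
    simpa using h.int_rho 1
  · simp only [hk, if_false]
    simpa using h.int_rho 0

lemma Good.R1 (h : Good μ δ L) (i : I) :
    ∫ ω : I → ℝ, (∏ k, Real.exp (L - δ * ω k)) * ω i ∂(Measure.pi fun _ : I => μ) = 0 := by
  classical
  have := h.prob
  have h1 : ∀ ω : I → ℝ, (∏ k, Real.exp (L - δ * ω k)) * ω i =
      ∏ k, (fun k x => Real.exp (L - δ * x) * (if k = i then x else 1)) k (ω k) := by
    intro ω
    simp only []
    rw [Finset.prod_mul_distrib]
    simp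
  simp only [h1]
  rw [integral_fintype_prod_eq_prod
    (fun (k : I) (x : ℝ) => Real.exp (L - δ * x) * (if k = i then x else 1))]
  refine Finset.prod_eq_zero (Finset.mem_univ i) ?_
  simp [h.r1]

lemma Good.R_En (h : Good μ δ L) (p : I → V) :
    ∫ ω : I → ℝ, (∏ k, Real.exp (L - δ * ω k)) * En p ω ∂(Measure.pi fun _ : I => μ) =
      Fintype.card I := by
  classical
  have := h.prob
  unfold En Bf
  simp only [Finset.mul_sum]
  rw [integral_finsetSum]
  · have : ∀ i : I, ∫ ω : I → ℝ, ∑ j, (∏ k, Real.exp (L - δ * ω k)) *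
        (if p i = p j then ω i * ω j else 0) ∂(Measure.pi fun _ : I => μ) = 1 := by
      intro i
      rw [integral_finsetSum]
      · rw [Finset.sum_eq_single i]
        · simp only [if_true]
          rw [h.R2]; simp
        · intro j _ hj
          by_cases hp : p i = p j
          · simp only [hp, if_true]
            rw [h.R2]
            have : ¬ i = j := fun hh => hj hh.symm
            simp [this]
          · simp [hp]
        · intro hi; exact absurd (Finset.mem_univ i) hi
      · intro j _
        split_ifs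
        · exact h.int_R2 i j
        · simp
    rw [Finset.sum_congr rfl fun i _ => this i]
    simp
  · intro i _
    refine integrable_finsetSum _ fun j _ => ?_
    split_ifs
    · exact h.int_R2 i j
    · simp

lemma Good.int_REn (h : Good μ δ L) (p : I → V) :
    Integrable (fun ω : I → ℝ => (∏ k, Real.exp (L - δ * ω k)) * En p ω)
      (Measure.pi fun _ : I => μ) := by
  unfold En Bf
  simp only [Finset.mul_sum]
  refine integrable_finsetSum _ fun i _ => integrable_finsetSum _ fun j _ => ?_
  split_ifs
  · exact h.int_R2 i j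
  · simp

/-- Lower bound for the weights. -/
theorem Good.Wt_ge (h : Good μ δ L) {β : ℝ} (hβ : 0 ≤ β) (p : I → V) :
    Real.exp (-((β + L) * Fintype.card I)) ≤ Wt μ β p := by
  have := h.prob
  set m := Measure.pi fun _ : I => μ with hm
  set R : (I → ℝ) → ℝ := fun ω => ∏ k, Real.exp (L - δ * ω k) with hR
  set c : (I → ℝ) → ℝ := fun ω => -β * En p ω + δ * ∑ k, ω k - L * Fintype.card I with hc
  have e1 : ∀ ω, R ω * Real.exp (c ω) = Real.exp (-β * En p ω) := by
    intro ω
    simp only [hR, hc]
    rw [← Real.exp_sum, ← Real.exp_add, Finset.sum_sub_distrib, ← Finset.mul_sum]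
    congr 1
    simp only [Finset.sum_const, Finset.card_univ, nsmul_eq_mul]
    ring
  have e2 : ∀ ω, R ω * c ω = -β * (R ω * En p ω) + δ * (∑ k, R ω * ω k) -
      L * Fintype.card I * R ω := by
    intro ω
    simp only [hc]
    rw [← Finset.mul_sum]
    ring
  have i1 : Integrable (fun ω => ∑ k, R ω * ω k) m :=
    integrable_finsetSum _ fun k _ => h.int_R1 k
  have i2 : Integrable (fun ω => R ω * c ω) m := by
    simp only [e2]
    exact (((h.int_REn p).const_mul _).add (i1.const_mul _)).sub (h.int_R.const_mul _)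
  have i3 : Integrable (fun ω => R ω * Real.exp (c ω)) m := by
    simp only [e1]
    exact h.int_exp hβ p
  have hR1 : ∫ ω, R ω ∂m = 1 := h.R_one
  have i4 : ∫ ω, R ω * c ω ∂m = -((β + L) * Fintype.card I) := by
    simp only [e2]
    have j1 : Integrable (fun ω => -β * (R ω * En p ω)) m := (h.int_REn p).const_mul _
    have j2 : Integrable (fun ω => δ * (∑ k, R ω * ω k)) m := i1.const_mul _
    have j3 : Integrable (fun ω => L * Fintype.card I * R ω) m := h.int_R.const_mul _
    have j4 : Integrable (fun ω => -β * (R ω * En p ω) + δ * (∑ k, R ω * ω k)) m := j1.add j2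
    rw [integral_sub j4 j3, integral_add j1 j2, integral_const_mul,
      integral_const_mul, integral_const_mul, hR1, integral_finsetSum]
    · simp only [hR]
      rw [h.R_En p]
      have : ∀ k : I, ∫ ω : I → ℝ, (∏ k, Real.exp (L - δ * ω k)) * ω k ∂m = 0 :=
        fun k => h.R1 k
      simp only [this]
      simp only [Finset.sum_const_zero]
      ring
    · intro k _
      exact h.int_R1 k
  have := gibbs_le m R c (fun ω => Finset.prod_nonneg fun _ _ => (Real.exp_pos _).le) h.int_R i2 i3
    (by rw [hR1]; exact one_pos)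
  simp only [e1] at this
  rw [hR1, i4] at this
  unfold Wt
  simpa using this

lemma Good.Wt_pos (h : Good μ δ L) {β : ℝ} (hβ : 0 ≤ β) (p : I → V) : 0 < Wt μ β p :=
  lt_of_lt_of_le (Real.exp_pos _) (h.Wt_ge hβ p)

/-- The mean energy. -/
lemma Good.energy_le (h : Good μ δ L) {β : ℝ} (hβ : 0 < β) (p : I → V) :
    Gi μ β p (En p) ≤ (2 * (β + L) / β * Fintype.card I) * Wt μ β p := by
  have := h.prob
  set m := Measure.pi fun _ : I => μ with hm
  have hpos := h.Wt_pos hβ.le p
  have e1 : ∀ ω : I → ℝ, Real.exp (-β * En p ω) * Real.exp (β / 2 * En p ω) =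
      Real.exp (-(β / 2) * En p ω) := by
    intro ω; rw [← Real.exp_add]; ring_nf
  have e2 : ∀ ω : I → ℝ, Real.exp (-β * En p ω) * (β / 2 * En p ω) =
      β / 2 * (Real.exp (-β * En p ω) * En p ω) := by
    intro ω; ring
  have h1 := gibbs_le m (fun ω : I → ℝ => Real.exp (-β * En p ω)) (fun ω => β / 2 * En p ω)
    (fun ω => (Real.exp_pos _).le) (h.int_exp hβ.le p)
    (h.int_wt hβ.le p ((h.int_En p).const_mul _))
    (by simp only [e1]; exact h.int_exp (by positivity) p) hpos
  simp only [e1, e2] at h1
  rw [integral_const_mul] at h1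
  change Wt μ β p * Real.exp (β / 2 * Gi μ β p (En p) / Wt μ β p) ≤ Wt μ (β / 2) p at h1
  have h2 := h1.trans (h.Wt_le_one (by positivity) p)
  have h3 := (Real.log_le_log (mul_pos hpos (Real.exp_pos _)) h2)
  rw [Real.log_mul hpos.ne' (Real.exp_pos _).ne', Real.log_exp, Real.log_one] at h3
  have h4 : -((β + L) * Fintype.card I) ≤ Real.log (Wt μ β p) := by
    rw [← Real.log_exp (-((β + L) * Fintype.card I))]
    exact Real.log_le_log (Real.exp_pos _) (h.Wt_ge hβ.le p)
  have h5 : β / 2 * Gi μ β p (En p) / Wt μ β p ≤ (β + L) * Fintype.card I := by linarith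
  rw [div_le_iff₀ hpos] at h5
  have h6 : β / 2 * Gi μ β p (En p) ≤ β / 2 * ((2 * (β + L) / β * Fintype.card I) * Wt μ β p) := by
    refine h5.trans (le_of_eq ?_)
    field_simp
  exact le_of_mul_le_mul_left h6 (by positivity)

lemma Gi_add (h : Good μ δ L) {β : ℝ} (hβ : 0 ≤ β) (p : I → V) {f g : (I → ℝ) → ℝ}
    (hf : Integrable f (Measure.pi fun _ : I => μ)) (hg : Integrable g (Measure.pi fun _ : I => μ)) :
    Gi μ β p (fun ω => f ω + g ω) = Gi μ β p f + Gi μ β p g := by
  unfold Gi
  rw [← integral_add (h.int_wt hβ p hf) (h.int_wt hβ p hg)]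
  refine integral_congr_ae (Filter.Eventually.of_forall fun ω => ?_)
  simp only []
  ring

lemma Gi_const_mul (β : ℝ) (p : I → V) (c : ℝ) (f : (I → ℝ) → ℝ) :
    Gi μ β p (fun ω => c * f ω) = c * Gi μ β p f := by
  unfold Gi
  rw [← integral_const_mul]
  refine integral_congr_ae (Filter.Eventually.of_forall fun ω => ?_)
  simp only []
  ring

lemma Gi_one (β : ℝ) (p : I → V) : Gi μ β p (fun _ => 1) = Wt μ β p := by
  unfold Gi Wt
  simp

lemma Gi_nonneg (β : ℝ) (p : I → V) {f : (I → ℝ) → ℝ} (hf : ∀ ω, 0 ≤ f ω) : 0 ≤ Gi μ β p f :=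
  integral_nonneg fun ω => mul_nonneg (Real.exp_pos _).le (hf ω)

lemma Gi_sum (h : Good μ δ L) {β : ℝ} (hβ : 0 ≤ β) (p : I → V) {ι : Type*} (s : Finset ι)
    {f : ι → (I → ℝ) → ℝ} (hf : ∀ k ∈ s, Integrable (f k) (Measure.pi fun _ : I => μ)) :
    Gi μ β p (fun ω => ∑ k ∈ s, f k ω) = ∑ k ∈ s, Gi μ β p (f k) := by
  unfold Gi
  rw [← integral_finsetSum]
  · refine integral_congr_ae (Filter.Eventually.of_forall fun ω => ?_)
    simp only []
    rw [Finset.mul_sum]
  · intro k hk
    exact h.int_wt hβ p (hf k hk)

/-- The energy of the mean charges is at most the mean energy. -/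
lemma Good.En_av_le (h : Good μ δ L) {β : ℝ} (hβ : 0 < β) (p : I → V) :
    En p (av μ β p) ≤ 2 * (β + L) / β * Fintype.card I := by
  have := h.prob
  have hpos := h.Wt_pos hβ.le p
  have h1 : En p (av μ β p) * Wt μ β p ≤ Gi μ β p (En p) := by
    set T : Finset V := univ.image p with hT
    have hpT : ∀ i, p i ∈ T := fun i => Finset.mem_image_of_mem _ (Finset.mem_univ i)
    have iAt : ∀ x, Integrable (fun ω : I → ℝ => At p ω x) (Measure.pi fun _ : I => μ) := by
      intro x
      unfold At
      refine integrable_finsetSum _ fun i _ => ?_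
      split_ifs
      · exact h.int_one i
      · simp
    have iAt2 : ∀ x, Integrable (fun ω : I → ℝ => At p ω x ^ 2) (Measure.pi fun _ : I => μ) := by
      intro x
      have : ∀ ω : I → ℝ, At p ω x ^ 2 = ∑ i, ∑ j, (if p i = x then (if p j = x then
          ω i * ω j else 0) else 0) := by
        intro ω
        unfold At
        rw [sq, Finset.sum_mul_sum]
        refine Finset.sum_congr rfl fun i _ => Finset.sum_congr rfl fun j _ => ?_
        split_ifs <;> simp
      simp only [this]
      refine integrable_finsetSum _ fun i _ => integrable_finsetSum _ fun j _ => ?_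
      split_ifs
      · exact h.int_mul i j
      · simp
      · simp
    have hG : Gi μ β p (En p) = ∑ x ∈ T, Gi μ β p (fun ω => At p ω x ^ 2) := by
      rw [← Gi_sum h hβ.le p T fun x _ => iAt2 x]
      congr 1
      funext ω
      exact En_eq p ω T hpT
    have hA : ∀ x, Gi μ β p (fun ω => At p ω x) = At p (av μ β p) x * Wt μ β p := by
      intro x
      have : Gi μ β p (fun ω => At p ω x) =
          ∑ i, Gi μ β p (fun ω => if p i = x then ω i else 0) := by
        refine Gi_sum h hβ.le p univ fun i _ => ?_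
        split_ifs
        · exact h.int_one i
        · simp
      rw [this]
      unfold At
      rw [Finset.sum_mul]
      refine Finset.sum_congr rfl fun i _ => ?_
      split_ifs
      · unfold av
        field_simp
      · simp [Gi]
    rw [hG, En_eq p _ T hpT, Finset.sum_mul]
    refine Finset.sum_le_sum fun x _ => ?_
    set t := At p (av μ β p) x with ht
    have h2 : 0 ≤ Gi μ β p (fun ω => (At p ω x - t) ^ 2) := Gi_nonneg β p fun ω => sq_nonneg _
    have h3 : (fun ω : I → ℝ => (At p ω x - t) ^ 2) =
        fun ω => At p ω x ^ 2 + ((-2 * t) * At p ω x + t ^ 2 * 1) := by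
      funext ω; ring
    have j1 : Integrable (fun ω : I → ℝ => (-2 * t) * At p ω x) (Measure.pi fun _ : I => μ) :=
      (iAt x).const_mul _
    have j2 : Integrable (fun ω : I → ℝ => t ^ 2 * (1 : ℝ)) (Measure.pi fun _ : I => μ) :=
      integrable_const _
    have j3 : Integrable (fun ω : I → ℝ => (-2 * t) * At p ω x + t ^ 2 * (1 : ℝ))
      (Measure.pi fun _ : I => μ) := j1.add j2
    rw [h3, Gi_add h hβ.le p (iAt2 x) j3, Gi_add h hβ.le p j1 j2, Gi_const_mul, Gi_const_mul,
      Gi_one, hA x] at h2
    nlinarith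
  have h2 := h1.trans (h.energy_le hβ p)
  exact le_of_mul_le_mul_right h2 hpos

end

section Join

variable {I J : Type*} [Fintype I] [Fintype J] {V : Type*} [DecidableEq V]

lemma Wt_sum (h : Good μ δ L) (β : ℝ) (p : I → V) (q : J → V) :
    Wt μ β (Sum.elim p q) = ∫ z : (I → ℝ) × (J → ℝ),
      Real.exp (-β * (En p z.1 + En q z.2 + 2 * Bf p q z.1 z.2))
      ∂((Measure.pi fun _ : I => μ).prod (Measure.pi fun _ : J => μ)) := by
  have := h.prob
  unfold Wt
  rw [← (measurePreserving_sumPiEquivProdPi_symm (X := fun _ : I ⊕ J => ℝ)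
    (fun _ : I ⊕ J => μ)).integral_comp']
  refine integral_congr_ae (Filter.Eventually.of_forall fun z => ?_)
  simp only []
  rw [← En_sum]
  have : (MeasurableEquiv.sumPiEquivProdPi fun _ : I ⊕ J => ℝ).symm z = Sum.elim z.1 z.2 := by
    funext s
    cases s <;> rfl
  rw [this]

/-- Superposition of two sets of positions. -/
theorem Good.join (h : Good μ δ L) {β : ℝ} (hβ : 0 < β) (p : I → V) (q : J → V) :
    Wt μ β p * Wt μ β q * Real.exp (-(2 * β * |Bf p q (av μ β p) (av μ β q)|)) ≤
      Wt μ β (Sum.elim p q) := by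
  have := h.prob
  have hp := h.Wt_pos hβ.le p
  have hq := h.Wt_pos hβ.le q
  set mI := Measure.pi fun _ : I => μ with hmI
  set mJ := Measure.pi fun _ : J => μ with hmJ
  set a : (I → ℝ) × (J → ℝ) → ℝ := fun z => Real.exp (-β * En p z.1) * Real.exp (-β * En q z.2)
    with ha
  set c : (I → ℝ) × (J → ℝ) → ℝ := fun z => -(2 * β) * Bf p q z.1 z.2 with hc
  have ia : Integrable a (mI.prod mJ) := (h.int_exp hβ.le p).mul_prod (h.int_exp hβ.le q)
  have va : ∫ z, a z ∂(mI.prod mJ) = Wt μ β p * Wt μ β q :=
    integral_prod_mul (fun ω : I → ℝ => Real.exp (-β * En p ω))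
      (fun η : J → ℝ => Real.exp (-β * En q η))
  have e1 : ∀ z, a z * Real.exp (c z) =
      Real.exp (-β * (En p z.1 + En q z.2 + 2 * Bf p q z.1 z.2)) := by
    intro z
    simp only [ha, hc]
    rw [← Real.exp_add, ← Real.exp_add]
    congr 1; ring
  have e2 : ∀ z, a z * c z = ∑ i, ∑ j, (if p i = q j then -(2 * β) *
      ((Real.exp (-β * En p z.1) * z.1 i) * (Real.exp (-β * En q z.2) * z.2 j)) else 0) := by
    intro z
    simp only [ha, hc, Bf]
    rw [Finset.mul_sum, Finset.mul_sum]
    refine Finset.sum_congr rfl fun i _ => ?_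
    rw [Finset.mul_sum, Finset.mul_sum]
    refine Finset.sum_congr rfl fun j _ => ?_
    split_ifs
    · ring
    · simp
  have iij : ∀ i j, Integrable (fun z : (I → ℝ) × (J → ℝ) =>
      (Real.exp (-β * En p z.1) * z.1 i) * (Real.exp (-β * En q z.2) * z.2 j)) (mI.prod mJ) :=
    fun i j => (h.int_wt hβ.le p (h.int_one i)).mul_prod (h.int_wt hβ.le q (h.int_one j))
  have vij : ∀ i j, ∫ z : (I → ℝ) × (J → ℝ),
      (Real.exp (-β * En p z.1) * z.1 i) * (Real.exp (-β * En q z.2) * z.2 j) ∂(mI.prod mJ) =
      Wt μ β p * Wt μ β q * (av μ β p i * av μ β q j) := by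
    intro i j
    rw [integral_prod_mul (fun ω : I → ℝ => Real.exp (-β * En p ω) * ω i)
      (fun η : J → ℝ => Real.exp (-β * En q η) * η j)]
    unfold av Gi
    field_simp
    simp only [hmI, hmJ]
  have iac : Integrable (fun z => a z * c z) (mI.prod mJ) := by
    simp only [e2]
    refine integrable_finsetSum _ fun i _ => integrable_finsetSum _ fun j _ => ?_
    split_ifs
    · exact (iij i j).const_mul _
    · simp
  have vac : ∫ z, a z * c z ∂(mI.prod mJ) =
      Wt μ β p * Wt μ β q * (-(2 * β) * Bf p q (av μ β p) (av μ β q)) := by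
    simp only [e2]
    rw [integral_finsetSum]
    · unfold Bf
      rw [Finset.mul_sum, Finset.mul_sum]
      refine Finset.sum_congr rfl fun i _ => ?_
      rw [integral_finsetSum]
      · rw [Finset.mul_sum, Finset.mul_sum]
        refine Finset.sum_congr rfl fun j _ => ?_
        split_ifs
        · rw [integral_const_mul, vij]; ring
        · simp
      · intro j _
        split_ifs
        · exact (iij i j).const_mul _
        · simp
    · intro i _
      refine integrable_finsetSum _ fun j _ => ?_
      split_ifs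
      · exact (iij i j).const_mul _
      · simp
  have iae : Integrable (fun z => a z * Real.exp (c z)) (mI.prod mJ) := by
    simp only [e1]
    have hcont : Continuous fun z : (I → ℝ) × (J → ℝ) =>
        Real.exp (-β * (En p z.1 + En q z.2 + 2 * Bf p q z.1 z.2)) := by
      have h1 := (continuous_En p).comp (continuous_fst (X := I → ℝ) (Y := J → ℝ))
      have h2 := (continuous_En q).comp (continuous_snd (X := I → ℝ) (Y := J → ℝ))
      have h3 : Continuous fun z : (I → ℝ) × (J → ℝ) => Bf p q z.1 z.2 := by
        unfold Bf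
        refine continuous_finsetSum _ fun i _ => continuous_finsetSum _ fun j _ => ?_
        split_ifs
        · fun_prop
        · fun_prop
      exact Real.continuous_exp.comp (continuous_const.mul ((h1.add h2).add
        (continuous_const.mul h3)))
    refine Integrable.of_bound hcont.aestronglyMeasurable 1 ?_
    refine Filter.Eventually.of_forall fun z => ?_
    rw [Real.norm_eq_abs, abs_of_pos (Real.exp_pos _), ← En_sum]
    exact exp_En_le hβ.le _ _
  have hmain := gibbs_le (mI.prod mJ) a c
    (fun z => mul_nonneg (Real.exp_pos _).le (Real.exp_pos _).le) ia iac iae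
    (by rw [va]; exact mul_pos hp hq)
  rw [va, vac] at hmain
  have e3 : Wt μ β p * Wt μ β q * (-(2 * β) * Bf p q (av μ β p) (av μ β q)) /
      (Wt μ β p * Wt μ β q) = -(2 * β) * Bf p q (av μ β p) (av μ β q) := by
    field_simp
  rw [e3] at hmain
  simp only [e1] at hmain
  rw [← Wt_sum h] at hmain
  refine le_trans (mul_le_mul_of_nonneg_left (Real.exp_le_exp.2 ?_) (mul_pos hp hq).le) hmain
  have := le_abs_self (Bf p q (av μ β p) (av μ β q))
  nlinarith

lemma Wt_reindex (h : Good μ δ L) (β : ℝ) (e : I ≃ J) (q : J → V) :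
    Wt μ β (fun i => q (e i)) = Wt μ β q := by
  have := h.prob
  unfold Wt
  rw [← (measurePreserving_piCongrLeft (α := fun _ : J => ℝ) (fun _ : J => μ) e).integral_comp']
  refine integral_congr_ae (Filter.Eventually.of_forall fun ω => ?_)
  simp only []
  rw [← En_reindex e q]
  congr 3
  funext i
  rw [MeasurableEquiv.coe_piCongrLeft]
  exact (Equiv.piCongrLeft_apply_apply (fun _ : J => ℝ) e ω i).symm

lemma Wt_shift {V' : Type*} [DecidableEq V'] (β : ℝ) (p : I → V) (g : V → V')
    (hg : Function.Injective g) : Wt μ β (fun i => g (p i)) = Wt μ β p := by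
  unfold Wt
  simp only [En_shift p g hg]

lemma av_shift {V' : Type*} [DecidableEq V'] (β : ℝ) (p : I → V) (g : V → V')
    (hg : Function.Injective g) : av μ β (fun i => g (p i)) = av μ β p := by
  funext i
  unfold av Gi Wt
  simp only [En_shift p g hg]

end Join

end Pool.Agent.Q215.Chg
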