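import Pool.Agent.Q215.Chg.Meas
import Pool.Agent.Helper964.Chg.Two

open MeasureTheory Finset Filter Topology

namespace Pool.Agent.Q215.Chg

open Pool.Agent.Helper964.Chg (Ex glue pos stp sw Loc pos_glue_le pos_glue_add pos_succ pos_zero
  pos_congr Ex_append Ex_comm Ex_ge_single Ex_mono Ex_const Ex_pos Ex_mul_left Ex_mul_right sw_pos
  sw_sum sw_nonneg)

variable {d : ℕ}

/-- Linking word: `a` steps right, `2r-a-c` steps up, `c` steps left. -/
def lw (x y : Fin d) (r a c : ℕ) : ℕ → Fin d × Bool := fun i =>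
  if i < a then (x, true) else if i < 2 * r - c then (y, true) else (x, false)

lemma pos_lw {x y : Fin d} (hxy : x ≠ y) {r a c : ℕ} (ha : a ≤ r) (hc : c ≤ r) (j : ℕ) :
    pos (lw x y r a c) j x = ((min j a : ℕ) : ℤ) - ((j - (2 * r - c) : ℕ) : ℤ) ∧
    pos (lw x y r a c) j y = ((min j (2 * r - c) - a : ℕ) : ℤ) := by
  induction j with
  | zero => simp [pos_zero]
  | succ j ih =>
    rw [pos_succ]
    have hyx : y ≠ x := hxy.symm
    by_cases h1 : j < a
    · have h2 : lw x y r a c j = (x, true) := by simp [lw, h1]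
      have e1 : stp (x, true) x = (1 : ℤ) := by simp [stp]
      have e2 : stp (x, true) y = (0 : ℤ) := by simp [stp, hyx]
      rw [h2, Pi.add_apply, Pi.add_apply, e1, e2, ih.1, ih.2]
      constructor <;> omega
    · by_cases h3 : j < 2 * r - c
      · have h2 : lw x y r a c j = (y, true) := by simp [lw, h1, h3]
        have e1 : stp (y, true) x = (0 : ℤ) := by simp [stp, hxy]
        have e2 : stp (y, true) y = (1 : ℤ) := by simp [stp]
        rw [h2, Pi.add_apply, Pi.add_apply, e1, e2, ih.1, ih.2]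
        constructor <;> omega
      · have h2 : lw x y r a c j = (x, false) := by simp [lw, h1, h3]
        have e1 : stp (x, false) x = (-1 : ℤ) := by simp [stp]
        have e2 : stp (x, false) y = (0 : ℤ) := by simp [stp, hyx]
        rw [h2, Pi.add_apply, Pi.add_apply, e1, e2, ih.1, ih.2]
        constructor <;> omega

lemma lw_end_inj {x y : Fin d} (hxy : x ≠ y) {r a c a' c' : ℕ} (ha : a ≤ r) (hc : c ≤ r)
    (ha' : a' ≤ r) (hc' : c' ≤ r)
    (h : pos (lw x y r a c) (2 * r) = pos (lw x y r a' c') (2 * r)) : a = a' ∧ c = c' := by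
  have h1 := congrFun h x
  have h2 := congrFun h y
  rw [(pos_lw hxy ha hc _).1, (pos_lw hxy ha' hc' _).1] at h1
  rw [(pos_lw hxy ha hc _).2, (pos_lw hxy ha' hc' _).2] at h2
  omega

/-- The sites visited at times `1, ..., n`. -/
def Ps (e : ℕ → Fin d × Bool) (n : ℕ) : Fin n → Fin d → ℤ := fun i => pos e (i + 1)

lemma Ps_congr {n : ℕ} {e e' : ℕ → Fin d × Bool} (h : ∀ i < n, e i = e' i) : Ps e n = Ps e' n := by
  funext i
  exact pos_congr h (by have := i.2; omega)

/-- Splitting the time interval in three pieces, the middle one put last. -/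
def eqv (N K M : ℕ) : (Fin N ⊕ Fin M) ⊕ Fin K ≃ Fin (N + (K + M)) :=
  (Equiv.sumAssoc _ _ _).trans ((Equiv.sumCongr (Equiv.refl _)
    ((Equiv.sumComm _ _).trans finSumFinEquiv)).trans finSumFinEquiv)

lemma eqv_1 (N K M : ℕ) (i : Fin N) : (eqv N K M (Sum.inl (Sum.inl i)) : ℕ) = i := rfl
lemma eqv_2 (N K M : ℕ) (i : Fin M) : (eqv N K M (Sum.inl (Sum.inr i)) : ℕ) = N + (K + i) := rfl
lemma eqv_3 (N K M : ℕ) (i : Fin K) : (eqv N K M (Sum.inr i) : ℕ) = N + i := rfl

lemma Ps_glue (N K M : ℕ) (u c v : ℕ → Fin d × Bool) :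
    (fun s => Ps (glue N u (glue K c v)) (N + (K + M)) (eqv N K M s)) =
      Sum.elim (Sum.elim (Ps u N) (fun j => pos u N + (pos c K + Ps v M j)))
        (fun k : Fin K => pos u N + Ps c K k) := by
  funext s
  rcases s with (i | j) | k
  · simp only [Ps, Sum.elim_inl, eqv_1]
    exact pos_glue_le _ _ (by have := i.2; omega)
  · simp only [Ps, Sum.elim_inl, Sum.elim_inr, eqv_2]
    rw [show N + (K + (j : ℕ)) + 1 = N + (K + ((j : ℕ) + 1)) by ring, pos_glue_add, pos_glue_add]
  · simp only [Ps, Sum.elim_inr, eqv_3]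
    rw [show N + (k : ℕ) + 1 = N + ((k : ℕ) + 1) by ring, pos_glue_add]
    rw [pos_glue_le _ _ (by have := k.2; omega)]

lemma Ps_glue2 (N M : ℕ) (u v : ℕ → Fin d × Bool) :
    (fun s => Ps (glue N u v) (N + M) (finSumFinEquiv s)) =
      Sum.elim (Ps u N) (fun j : Fin M => pos u N + Ps v M j) := by
  funext s
  rcases s with i | j
  · simp only [Ps, Sum.elim_inl]
    exact pos_glue_le _ _ (by have := i.2; simp)
  · simp only [Ps, Sum.elim_inr, finSumFinEquiv_apply_right, Fin.val_natAdd]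
    rw [show N + (j : ℕ) + 1 = N + ((j : ℕ) + 1) by ring, pos_glue_add]

variable {μ : Measure ℝ} {δ L β : ℝ}

/-- The energy constant. -/
noncomputable def K0 (β L : ℝ) : ℝ := 2 * (β + L) / β

lemma K0_nonneg (hβ : 0 < β) (hL : 0 ≤ L) : 0 ≤ K0 β L := by unfold K0; positivity

lemma K0_mul (hβ : 0 < β) : β * K0 β L = 2 * (β + L) := by unfold K0; field_simp

lemma Good.sqrt_En_le (h : Good μ δ L) (hβ : 0 < β) {I V : Type*} [Fintype I] [DecidableEq V]
    (p : I → V) : Real.sqrt (En p (av μ β p)) ≤ Real.sqrt (K0 β L * Fintype.card I) :=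
  Real.sqrt_le_sqrt (h.En_av_le hβ p)

lemma translate_inj (z : Fin d → ℤ) : Function.Injective (fun y => z + y) :=
  add_right_injective z

/-- Choice of a good linking word. -/
lemma exists_link (h : Good μ δ L) (hβ : 0 < β) {x y : Fin d} (hxy : x ≠ y) (N M r : ℕ)
    (u v : ℕ → Fin d × Bool) : ∃ c : ℕ → Fin d × Bool,
      Real.exp (-(4 * (β + L) * (N * M / ((r : ℝ) + 1) ^ 2) +
        4 * (β + L) * Real.sqrt ((N + M) * (2 * r)) + (β + L) * (2 * r))) *
        (Wt μ β (Ps u N) * Wt μ β (Ps v M)) ≤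
      Wt μ β (Ps (glue N u (glue (2 * r) c v)) (N + (2 * r + M))) := by
  have hL := h.hL
  have hK := K0_nonneg hβ hL
  set p := Ps u N with hp
  set q := Ps v M with hq
  set a := av μ β p with ha
  set b := av μ β q with hb
  set g : Fin (r + 1) × Fin (r + 1) → (Fin d → ℤ) → (Fin d → ℤ) := fun k z =>
    pos u N + (pos (lw x y r k.1 k.2) (2 * r) + z) with hg
  have hginj : ∀ k, Function.Injective (g k) := fun k z z' hz => by
    simpa [hg] using hz
  have hg2 : ∀ z k k', g k z = g k' z → k = k' := by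
    intro z k k' hkk
    simp only [hg, add_right_inj, add_left_inj] at hkk
    have h1 := k.1.2
    have h2 := k.2.2
    have h3 := k'.1.2
    have h4 := k'.2.2
    have := lw_end_inj hxy (by omega) (by omega) (by omega) (by omega) hkk
    exact Prod.ext (Fin.ext this.1) (Fin.ext this.2)
  have hsum := sum_shift_le p q a b g hg2
  have hpa : Real.sqrt (En p a) ≤ Real.sqrt (K0 β L * N) := by
    have := h.sqrt_En_le hβ p
    simpa using this
  have hqb : Real.sqrt (En q b) ≤ Real.sqrt (K0 β L * M) := by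
    have := h.sqrt_En_le hβ q
    simpa using this
  have hsum2 : ∑ k, |Bf p (fun j => g k (q j)) a b| ≤ K0 β L * (N * M) := by
    refine hsum.trans ?_
    simp only [Fintype.card_fin]
    calc (Real.sqrt N * Real.sqrt (En p a)) * (Real.sqrt M * Real.sqrt (En q b))
        ≤ (Real.sqrt N * Real.sqrt (K0 β L * N)) * (Real.sqrt M * Real.sqrt (K0 β L * M)) := by
          gcongr
      _ = (Real.sqrt (K0 β L) * Real.sqrt (K0 β L)) * (Real.sqrt N * Real.sqrt N) *
          (Real.sqrt M * Real.sqrt M) := by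
          rw [Real.sqrt_mul hK, Real.sqrt_mul hK]; ring
      _ = K0 β L * (N * M) := by
          rw [Real.mul_self_sqrt hK, Real.mul_self_sqrt (Nat.cast_nonneg _),
            Real.mul_self_sqrt (Nat.cast_nonneg _)]
          ring
  obtain ⟨k, -, hk⟩ : ∃ k ∈ (Finset.univ : Finset (Fin (r + 1) × Fin (r + 1))),
      |Bf p (fun j => g k (q j)) a b| ≤ K0 β L * (N * M / ((r : ℝ) + 1) ^ 2) := by
    refine Finset.exists_le_of_sum_le ⟨(0, 0), Finset.mem_univ _⟩ ?_
    refine hsum2.trans (le_of_eq ?_)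
    simp only [Finset.sum_const, Finset.card_univ, Fintype.card_prod, Fintype.card_fin,
      nsmul_eq_mul]
    push_cast
    field_simp
  refine ⟨lw x y r k.1 k.2, ?_⟩
  rw [← Wt_reindex h β (eqv N (2 * r) M), Ps_glue]
  set P : Fin N ⊕ Fin M → (Fin d → ℤ) := Sum.elim p (fun j => g k (q j)) with hP
  set R : Fin (2 * r) → (Fin d → ℤ) :=
    (fun i => pos u N + Ps (lw x y r k.1 k.2) (2 * r) i) with hR
  have s1 := h.join hβ p (fun j => g k (q j))
  rw [Wt_shift β q (g k) (hginj k), av_shift β q (g k) (hginj k)] at s1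
  have s2 := h.join hβ P R
  have s3 : |Bf P R (av μ β P) (av μ β R)| ≤ K0 β L * Real.sqrt ((N + M) * (2 * r)) := by
    refine (abs_Bf_le P R _ _).trans ?_
    refine (mul_le_mul (h.sqrt_En_le hβ P) (h.sqrt_En_le hβ R) (Real.sqrt_nonneg _)
      (Real.sqrt_nonneg _)).trans (le_of_eq ?_)
    simp only [Fintype.card_sum, Fintype.card_fin]
    push_cast
    rw [Real.sqrt_mul hK, Real.sqrt_mul hK, Real.sqrt_mul (by positivity : (0 : ℝ) ≤ (N : ℝ) + M)]
    have := Real.mul_self_sqrt hK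
    calc Real.sqrt (K0 β L) * Real.sqrt (N + M) * (Real.sqrt (K0 β L) * Real.sqrt (2 * r)) =
        (Real.sqrt (K0 β L) * Real.sqrt (K0 β L)) * (Real.sqrt (N + M) * Real.sqrt (2 * r)) := by
          ring
      _ = _ := by rw [this]
  have s4 : Real.exp (-((β + L) * (2 * r))) ≤ Wt μ β R := by
    have := h.Wt_ge hβ.le R
    simpa using this
  have hp0 := h.Wt_pos hβ.le p
  have hq0 := h.Wt_pos hβ.le q
  have hP0 := h.Wt_pos hβ.le P
  have hR0 := h.Wt_pos hβ.le R
  have c1 : 2 * β * |Bf p (fun j => g k (q j)) a b| ≤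
      4 * (β + L) * (N * M / ((r : ℝ) + 1) ^ 2) := by
    calc 2 * β * |Bf p (fun j => g k (q j)) a b| ≤
        2 * β * (K0 β L * (N * M / ((r : ℝ) + 1) ^ 2)) := by gcongr
      _ = 2 * (β * K0 β L) * (N * M / ((r : ℝ) + 1) ^ 2) := by ring
      _ = _ := by rw [K0_mul hβ]; ring
  have c2 : 2 * β * |Bf P R (av μ β P) (av μ β R)| ≤
      4 * (β + L) * Real.sqrt ((N + M) * (2 * r)) := by
    calc 2 * β * |Bf P R (av μ β P) (av μ β R)| ≤
        2 * β * (K0 β L * Real.sqrt ((N + M) * (2 * r))) := by gcongr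
      _ = 2 * (β * K0 β L) * Real.sqrt ((N + M) * (2 * r)) := by ring
      _ = _ := by rw [K0_mul hβ]; ring
  calc Real.exp (-(4 * (β + L) * (N * M / ((r : ℝ) + 1) ^ 2) +
        4 * (β + L) * Real.sqrt ((N + M) * (2 * r)) + (β + L) * (2 * r))) *
        (Wt μ β p * Wt μ β q)
      = ((Wt μ β p * Wt μ β q) * Real.exp (-(4 * (β + L) * (N * M / ((r : ℝ) + 1) ^ 2)))) *
        Real.exp (-((β + L) * (2 * r))) *
        Real.exp (-(4 * (β + L) * Real.sqrt ((N + M) * (2 * r)))) := by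
        rw [show -(4 * (β + L) * (N * M / ((r : ℝ) + 1) ^ 2) +
          4 * (β + L) * Real.sqrt ((N + M) * (2 * r)) + (β + L) * (2 * r)) =
          -(4 * (β + L) * (N * M / ((r : ℝ) + 1) ^ 2)) + -((β + L) * (2 * r)) +
          -(4 * (β + L) * Real.sqrt ((N + M) * (2 * r))) by ring, Real.exp_add, Real.exp_add]
        ring
    _ ≤ ((Wt μ β p * Wt μ β q) * Real.exp (-(2 * β * |Bf p (fun j => g k (q j)) a b|))) *
        Wt μ β R * Real.exp (-(2 * β * |Bf P R (av μ β P) (av μ β R)|)) := by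
        gcongr
    _ ≤ Wt μ β P * Wt μ β R * Real.exp (-(2 * β * |Bf P R (av μ β P) (av μ β R)|)) := by
        gcongr
    _ ≤ _ := s2

/-- Appending an arbitrary piece. -/
lemma append_le (h : Good μ δ L) (hβ : 0 < β) (N M : ℕ) (u v : ℕ → Fin d × Bool) :
    Real.exp (-(4 * (β + L) * Real.sqrt (N * M) + (β + L) * M)) * Wt μ β (Ps u N) ≤
      Wt μ β (Ps (glue N u v) (N + M)) := by
  have hL := h.hL
  have hK := K0_nonneg hβ hL
  rw [← Wt_reindex h β (finSumFinEquiv (m := N) (n := M)), Ps_glue2]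
  set P : Fin N → (Fin d → ℤ) := Ps u N with hP
  set R : Fin M → (Fin d → ℤ) := (fun i => pos u N + Ps v M i) with hR
  have s2 := h.join hβ P R
  have s3 : |Bf P R (av μ β P) (av μ β R)| ≤ K0 β L * Real.sqrt (N * M) := by
    refine (abs_Bf_le P R _ _).trans ?_
    refine (mul_le_mul (h.sqrt_En_le hβ P) (h.sqrt_En_le hβ R) (Real.sqrt_nonneg _)
      (Real.sqrt_nonneg _)).trans (le_of_eq ?_)
    simp only [Fintype.card_fin]
    rw [Real.sqrt_mul hK, Real.sqrt_mul hK, Real.sqrt_mul (Nat.cast_nonneg N)]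
    have := Real.mul_self_sqrt hK
    calc Real.sqrt (K0 β L) * Real.sqrt N * (Real.sqrt (K0 β L) * Real.sqrt M) =
        (Real.sqrt (K0 β L) * Real.sqrt (K0 β L)) * (Real.sqrt N * Real.sqrt M) := by
          ring
      _ = _ := by rw [this]
  have s4 : Real.exp (-((β + L) * M)) ≤ Wt μ β R := by
    have := h.Wt_ge hβ.le R
    simpa using this
  have hP0 := h.Wt_pos hβ.le P
  have hR0 := h.Wt_pos hβ.le R
  have c2 : 2 * β * |Bf P R (av μ β P) (av μ β R)| ≤ 4 * (β + L) * Real.sqrt (N * M) := by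
    calc 2 * β * |Bf P R (av μ β P) (av μ β R)| ≤ 2 * β * (K0 β L * Real.sqrt (N * M)) := by gcongr
      _ = 2 * (β * K0 β L) * Real.sqrt (N * M) := by ring
      _ = _ := by rw [K0_mul hβ]; ring
  calc Real.exp (-(4 * (β + L) * Real.sqrt (N * M) + (β + L) * M)) * Wt μ β P
      = Wt μ β P * Real.exp (-((β + L) * M)) * Real.exp (-(4 * (β + L) * Real.sqrt (N * M))) := by
        rw [show -(4 * (β + L) * Real.sqrt (N * M) + (β + L) * M) =
          -((β + L) * M) + -(4 * (β + L) * Real.sqrt (N * M)) by ring, Real.exp_add]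
        ring
    _ ≤ Wt μ β P * Wt μ β R * Real.exp (-(2 * β * |Bf P R (av μ β P) (av μ β R)|)) := by
        gcongr
    _ ≤ _ := s2

variable [NeZero d]

/-- The partition function, over words. -/
noncomputable def Zr (d : ℕ) [NeZero d] (μ : Measure ℝ) (β : ℝ) (n : ℕ) : ℝ :=
  Ex (sw d) n (fun e => Wt μ β (Ps e n))

lemma Zr_pos (h : Good μ δ L) (hβ : 0 < β) (n : ℕ) : 0 < Zr d μ β n :=
  Ex_pos (sw_pos d) n _ fun _ => h.Wt_pos hβ.le _

lemma prod_sw (M : ℕ) (c : ℕ → Fin d × Bool) :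
    ∏ i ∈ range M, sw d (c i) = Real.exp (-(Real.log (2 * d) * M)) := by
  have hd : (0 : ℝ) < d := by exact_mod_cast NeZero.pos d
  simp only [sw, Finset.prod_const, Finset.card_range]
  rw [← Real.exp_log (by positivity : (0 : ℝ) < 1 / (2 * (d : ℝ))), ← Real.exp_nat_mul]
  congr 1
  rw [Real.log_div one_ne_zero (by positivity), Real.log_one]
  ring

lemma Zr_link (h : Good μ δ L) (hβ : 0 < β) {x y : Fin d} (hxy : x ≠ y) (N M r : ℕ) :
    Real.exp (-(4 * (β + L) * (N * M / ((r : ℝ) + 1) ^ 2) +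
      4 * (β + L) * Real.sqrt ((N + M) * (2 * r)) + (β + L + Real.log (2 * d)) * (2 * r))) *
      (Zr d μ β N * Zr d μ β M) ≤ Zr d μ β (N + (2 * r + M)) := by
  have key : ∀ u v : ℕ → Fin d × Bool, Real.exp (-(4 * (β + L) * (N * M / ((r : ℝ) + 1) ^ 2) +
      4 * (β + L) * Real.sqrt ((N + M) * (2 * r)) + (β + L + Real.log (2 * d)) * (2 * r))) *
      (Wt μ β (Ps u N) * Wt μ β (Ps v M)) ≤
      Ex (sw d) (2 * r) (fun c => Wt μ β (Ps (glue N u (glue (2 * r) c v)) (N + (2 * r + M)))) := by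
    intro u v
    obtain ⟨c, hc⟩ := exists_link h hβ hxy N M r u v
    have h1 := Ex_ge_single (sw_nonneg d) (2 * r)
      (fun c => Wt μ β (Ps (glue N u (glue (2 * r) c v)) (N + (2 * r + M))))
      (fun c => (h.Wt_pos hβ.le _).le) (by
        intro c c' hcc
        simp only []
        rw [Ps_congr]
        intro i hi
        unfold glue
        by_cases h1 : i < N
        · simp [h1]
        · by_cases h2 : i - N < 2 * r
          · simp [h1, h2, hcc _ h2]
          · simp [h1, h2]) c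
    refine le_trans ?_ h1
    rw [prod_sw]
    refine le_trans (le_of_eq ?_) (mul_le_mul_of_nonneg_left hc (Real.exp_pos _).le)
    have h2 : Real.exp (-(4 * (β + L) * (N * M / ((r : ℝ) + 1) ^ 2) +
        4 * (β + L) * Real.sqrt ((N + M) * (2 * r)) + (β + L + Real.log (2 * d)) * (2 * r))) =
        Real.exp (-(Real.log (2 * d) * ((2 * r : ℕ) : ℝ))) *
        Real.exp (-(4 * (β + L) * (N * M / ((r : ℝ) + 1) ^ 2) +
        4 * (β + L) * Real.sqrt ((N + M) * (2 * r)) + (β + L) * (2 * r))) := by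
      rw [← Real.exp_add]
      congr 1
      push_cast
      ring
    rw [h2]
    ring
  unfold Zr
  rw [Ex_append]
  have e1 : ∀ u : ℕ → Fin d × Bool,
      Ex (sw d) (2 * r + M) (fun e' => Wt μ β (Ps (glue N u e') (N + (2 * r + M)))) =
      Ex (sw d) M (fun v => Ex (sw d) (2 * r)
        (fun c => Wt μ β (Ps (glue N u (glue (2 * r) c v)) (N + (2 * r + M))))) := by
    intro u
    rw [Ex_append, Ex_comm]
  simp only [e1]
  set c0 := Real.exp (-(4 * (β + L) * (N * M / ((r : ℝ) + 1) ^ 2) +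
      4 * (β + L) * Real.sqrt ((N + M) * (2 * r)) + (β + L + Real.log (2 * d)) * (2 * r))) with hc0
  have e2 : c0 * (Ex (sw d) N (fun e => Wt μ β (Ps e N)) * Ex (sw d) M (fun e => Wt μ β (Ps e M))) =
      Ex (sw d) N (fun u => c0 * Wt μ β (Ps u N) * Ex (sw d) M (fun v => Wt μ β (Ps v M))) := by
    rw [Ex_mul_right, Ex_mul_left, mul_assoc]
  rw [e2]
  refine Ex_mono (sw_nonneg d) N fun u => ?_
  rw [← Ex_mul_left]
  refine Ex_mono (sw_nonneg d) M fun v => ?_
  refine le_trans (le_of_eq ?_) (key u v)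
  ring

lemma Zr_append (h : Good μ δ L) (hβ : 0 < β) (N M : ℕ) :
    Real.exp (-(4 * (β + L) * Real.sqrt (N * M) + (β + L + Real.log (2 * d)) * M)) *
      Zr d μ β N ≤ Zr d μ β (N + M) := by
  unfold Zr
  rw [Ex_append, ← Ex_mul_left]
  refine Ex_mono (sw_nonneg d) N fun u => ?_
  set v : ℕ → Fin d × Bool := fun _ => (0, true) with hv
  have h1 := Ex_ge_single (sw_nonneg d) M (fun v => Wt μ β (Ps (glue N u v) (N + M)))
    (fun c => (h.Wt_pos hβ.le _).le) (by
      intro c c' hcc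
      simp only []
      rw [Ps_congr]
      intro i hi
      unfold glue
      by_cases h1 : i < N
      · simp [h1]
      · simp [h1, hcc (i - N) (by omega)]) v
  refine le_trans ?_ h1
  rw [prod_sw]
  refine le_trans (le_of_eq ?_) (mul_le_mul_of_nonneg_left (append_le h hβ N M u v)
    (Real.exp_pos _).le)
  rw [← mul_assoc, ← Real.exp_add]
  congr 2
  ring

lemma Zr_le_one (h : Good μ δ L) (hβ : 0 < β) (N : ℕ) : Zr d μ β N ≤ 1 := by
  have := Ex_mono (sw_nonneg d) N (f := fun e => Wt μ β (Ps e N)) (g := fun _ => (1 : ℝ))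
    (w := sw d) fun e => h.Wt_le_one hβ.le _
  rw [Ex_const (sw_sum d)] at this
  exact this

lemma Zr_ge (h : Good μ δ L) (hβ : 0 < β) (N : ℕ) :
    Real.exp (-((β + L) * N)) ≤ Zr d μ β N := by
  have := Ex_mono (sw_nonneg d) N (g := fun e => Wt μ β (Ps e N))
    (f := fun _ => Real.exp (-((β + L) * N))) (w := sw d) fun e => by
      have := h.Wt_ge hβ.le (Ps e N)
      simpa using this
  rw [Ex_const (sw_sum d)] at this
  exact this

/-- Existence of the free energy. -/
theorem Zr_tendsto (h : Good μ δ L) (hβ : 0 < β) (hd : 2 ≤ d) :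
    ∃ f : ℝ, Tendsto (fun N : ℕ => Real.log (Zr d μ β N) / N) atTop (𝓝 f) := by
  have hL := h.hL
  have hd0 : (0 : ℝ) < d := by exact_mod_cast NeZero.pos d
  have hd2 : (2 : ℝ) ≤ d := by exact_mod_cast hd
  have hlog : 0 ≤ Real.log (2 * d) := Real.log_nonneg (by linarith)
  obtain ⟨x, y, hxy⟩ : ∃ x y : Fin d, x ≠ y := ⟨⟨0, by omega⟩, ⟨1, by omega⟩, by simp [Fin.ext_iff]⟩
  set C := 8 * (β + L) + 2 * Real.log (2 * d) with hC
  refine Pool.Agent.Helper964.Chg.Two.seq_conv (b := fun N => Real.log (Zr d μ β N))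
    (K := β + L) (C := C) (by positivity) ?_ ?_ ?_ ?_
  · intro N
    exact Real.log_nonpos (Zr_pos h hβ N).le (Zr_le_one h hβ N)
  · intro N
    have := Real.log_le_log (Real.exp_pos _) (Zr_ge (d := d) h hβ N)
    rw [Real.log_exp] at this
    exact this
  · intro N M r _ _
    have h1 := Zr_link (d := d) h hβ hxy N M r
    have hN := Zr_pos (d := d) h hβ N
    have hM := Zr_pos (d := d) h hβ M
    have h2 := Real.log_le_log (mul_pos (Real.exp_pos _) (mul_pos hN hM)) h1
    rw [Real.log_mul (Real.exp_pos _).ne' (mul_pos hN hM).ne', Real.log_exp,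
      Real.log_mul hN.ne' hM.ne'] at h2
    have h3 : N + (2 * r + M) = N + M + 2 * r := by ring
    rw [h3] at h2
    have h4 : Real.sqrt ((N + M) * (2 * r)) ≤ 2 * Real.sqrt (r * (N + M)) := by
      rw [show ((N : ℝ) + M) * (2 * r) = 2 * (r * (N + M)) by ring,
        Real.sqrt_mul (by norm_num)]
      have : Real.sqrt 2 ≤ 2 := by
        rw [Real.sqrt_le_left (by norm_num)]; norm_num
      gcongr
    have h5 : 4 * (β + L) * Real.sqrt ((N + M) * (2 * r)) ≤
        8 * (β + L) * Real.sqrt (r * (N + M)) := by nlinarith [mul_nonneg hβ.le hL]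
    have h6 : (0 : ℝ) ≤ N * M / ((r : ℝ) + 1) ^ 2 := by positivity
    have h7 : (0 : ℝ) ≤ Real.sqrt (r * (N + M)) := Real.sqrt_nonneg _
    have h8 : (0 : ℝ) ≤ r := Nat.cast_nonneg r
    have h9 : 4 * (β + L) * (N * M / ((r : ℝ) + 1) ^ 2) +
        4 * (β + L) * Real.sqrt ((N + M) * (2 * r)) + (β + L + Real.log (2 * d)) * (2 * r) ≤
        C * ((r : ℝ) + 1 + Real.sqrt (r * (N + M)) + N * M / ((r : ℝ) + 1) ^ 2) := by
      have a1 : 4 * (β + L) * (N * M / ((r : ℝ) + 1) ^ 2) ≤ C * (N * M / ((r : ℝ) + 1) ^ 2) :=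
        mul_le_mul_of_nonneg_right (by rw [hC]; nlinarith) h6
      have a2 : 8 * (β + L) * Real.sqrt (r * (N + M)) ≤ C * Real.sqrt (r * (N + M)) :=
        mul_le_mul_of_nonneg_right (by rw [hC]; nlinarith) h7
      have a3 : (β + L + Real.log (2 * d)) * (2 * r) ≤ C * (r + 1) := by
        have : (β + L + Real.log (2 * d)) * (2 * r) = (2 * (β + L) + 2 * Real.log (2 * d)) * r := by
          ring
        rw [this]
        have hC0 : 0 ≤ C := by positivity
        have : (2 * (β + L) + 2 * Real.log (2 * d)) * r ≤ C * r :=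
          mul_le_mul_of_nonneg_right (by rw [hC]; nlinarith) h8
        nlinarith
      have : C * ((r : ℝ) + 1 + Real.sqrt (r * (N + M)) + N * M / ((r : ℝ) + 1) ^ 2) =
        C * (r + 1) + C * Real.sqrt (r * (N + M)) + C * (N * M / ((r : ℝ) + 1) ^ 2) := by ring
      rw [this]
      linarith
    linarith
  · intro N M _
    have h1 := Zr_append (d := d) h hβ N M
    have hN := Zr_pos (d := d) h hβ N
    have h2 := Real.log_le_log (mul_pos (Real.exp_pos _) hN) h1
    rw [Real.log_mul (Real.exp_pos _).ne' hN.ne', Real.log_exp] at h2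
    have h4 : Real.sqrt (N * M) = Real.sqrt (M * N) := by rw [mul_comm]
    rw [h4] at h2
    have h7 : (0 : ℝ) ≤ Real.sqrt (M * N) := Real.sqrt_nonneg _
    have h8 : (0 : ℝ) ≤ M := Nat.cast_nonneg M
    have a1 : 4 * (β + L) * Real.sqrt (M * N) ≤ C * Real.sqrt (M * N) :=
      mul_le_mul_of_nonneg_right (by rw [hC]; nlinarith) h7
    have a2 : (β + L + Real.log (2 * d)) * M ≤ C * M :=
      mul_le_mul_of_nonneg_right (by rw [hC]; nlinarith) h8
    have : C * (M + Real.sqrt (M * N)) = C * M + C * Real.sqrt (M * N) := by ring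
    rw [this]
    linarith

end Pool.Agent.Q215.Chg
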