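import Mathlib

open MeasureTheory Finset

namespace Pool.Agent.Q215.Chg

section Form

variable {V : Type*} [DecidableEq V] {I J K : Type*} [Fintype I] [Fintype J] [Fintype K]

/-- The bilinear form `∑_{i,j} [p i = q j] a_i b_j`. -/
def Bf (p : I → V) (q : J → V) (a : I → ℝ) (b : J → ℝ) : ℝ :=
  ∑ i, ∑ j, if p i = q j then a i * b j else 0

/-- The charge at the site `x`. -/
def At (p : I → V) (a : I → ℝ) (x : V) : ℝ := ∑ i, if p i = x then a i else 0

/-- The energy. -/
def En (p : I → V) (a : I → ℝ) : ℝ := Bf p p a a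

lemma Bf_eq (p : I → V) (q : J → V) (a : I → ℝ) (b : J → ℝ) (T : Finset V)
    (hT : ∀ i, p i ∈ T) : Bf p q a b = ∑ x ∈ T, At p a x * At q b x := by
  unfold At Bf
  simp only [Finset.sum_mul_sum]
  rw [Finset.sum_comm (s := T)]
  refine Finset.sum_congr rfl fun i _ => ?_
  rw [Finset.sum_comm (s := T)]
  refine Finset.sum_congr rfl fun j _ => ?_
  rw [Finset.sum_eq_single (p i)]
  · by_cases h : p i = q j
    · simp [h]
    · have h' : ¬ q j = p i := fun h'' => h h''.symm
      simp [h, h']
  · intro x _ hx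
    have : ¬ p i = x := fun h => hx h.symm
    simp [this]
  · intro h; exact absurd (hT i) h

lemma En_eq (p : I → V) (a : I → ℝ) (T : Finset V) (hT : ∀ i, p i ∈ T) :
    En p a = ∑ x ∈ T, (At p a x) ^ 2 := by
  unfold En
  rw [Bf_eq p p a a T hT]
  exact Finset.sum_congr rfl fun x _ => by ring

lemma En_nonneg (p : I → V) (a : I → ℝ) : 0 ≤ En p a := by
  rw [En_eq p a (univ.image p) (fun i => Finset.mem_image_of_mem _ (Finset.mem_univ i))]
  exact Finset.sum_nonneg fun x _ => sq_nonneg _

lemma abs_Bf_le (p : I → V) (q : J → V) (a : I → ℝ) (b : J → ℝ) :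
    |Bf p q a b| ≤ Real.sqrt (En p a) * Real.sqrt (En q b) := by
  set T : Finset V := univ.image p ∪ univ.image q with hT
  have h1 : ∀ i, p i ∈ T := fun i =>
    Finset.mem_union_left _ (Finset.mem_image_of_mem _ (Finset.mem_univ i))
  have h2 : ∀ i, q i ∈ T := fun i =>
    Finset.mem_union_right _ (Finset.mem_image_of_mem _ (Finset.mem_univ i))
  rw [Bf_eq p q a b T h1, En_eq p a T h1, En_eq q b T h2]
  calc |∑ x ∈ T, At p a x * At q b x| ≤ ∑ x ∈ T, |At p a x| * |At q b x| := by
        refine (Finset.abs_sum_le_sum_abs _ _).trans (le_of_eq ?_)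
        exact Finset.sum_congr rfl fun x _ => abs_mul _ _
    _ ≤ Real.sqrt (∑ x ∈ T, |At p a x| ^ 2) * Real.sqrt (∑ x ∈ T, |At q b x| ^ 2) :=
        Real.sum_mul_le_sqrt_mul_sqrt T _ _
    _ = _ := by simp only [sq_abs]

lemma sum_abs_At_le (p : I → V) (a : I → ℝ) :
    ∑ x ∈ univ.image p, |At p a x| ≤ Real.sqrt (Fintype.card I) * Real.sqrt (En p a) := by
  rw [En_eq p a (univ.image p) (fun i => Finset.mem_image_of_mem _ (Finset.mem_univ i))]
  calc ∑ x ∈ univ.image p, |At p a x| = ∑ x ∈ univ.image p, 1 * |At p a x| := by simp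
    _ ≤ Real.sqrt (∑ x ∈ univ.image p, (1 : ℝ) ^ 2) *
        Real.sqrt (∑ x ∈ univ.image p, |At p a x| ^ 2) := Real.sum_mul_le_sqrt_mul_sqrt _ _ _
    _ ≤ _ := by
        simp only [sq_abs]
        refine mul_le_mul_of_nonneg_right (Real.sqrt_le_sqrt ?_) (Real.sqrt_nonneg _)
        simp only [one_pow, Finset.sum_const, nsmul_eq_mul, mul_one]
        exact_mod_cast (Finset.card_image_le (s := univ) (f := p)).trans (by simp)

lemma Bf_eq_image (p : I → V) (q : J → V) (a : I → ℝ) (b : J → ℝ) (g : V → V) :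
    Bf p (fun j => g (q j)) a b = ∑ x ∈ univ.image p, ∑ y ∈ univ.image q,
      if x = g y then At p a x * At q b y else 0 := by
  rw [Bf_eq p _ a b (univ.image p) (fun i => Finset.mem_image_of_mem _ (Finset.mem_univ i))]
  refine Finset.sum_congr rfl fun x _ => ?_
  have h1 : At (fun j => g (q j)) b x = ∑ y ∈ univ.image q, if x = g y then At q b y else 0 := by
    unfold At
    have h2 : ∀ y ∈ univ.image q, (if x = g y then ∑ j, (if q j = y then b j else 0) else 0) =
        ∑ j, if q j = y then (if x = g y then b j else 0) else 0 := by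
      intro y _
      by_cases h : x = g y
      · simp [h]
      · simp [h]
    rw [Finset.sum_congr rfl h2, Finset.sum_comm]
    refine Finset.sum_congr rfl fun j _ => ?_
    rw [Finset.sum_eq_single (q j)]
    · simp [eq_comm]
    · intro y _ hy
      have : ¬ q j = y := fun h => hy h.symm
      simp [this]
    · intro h
      exact absurd (Finset.mem_image_of_mem _ (Finset.mem_univ j)) h
  rw [h1, Finset.mul_sum]
  refine Finset.sum_congr rfl fun y _ => ?_
  split_ifs <;> simp

/-- Summing over different shifts. -/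
lemma sum_shift_le (p : I → V) (q : J → V) (a : I → ℝ) (b : J → ℝ) (g : K → V → V)
    (hg : ∀ y k k', g k y = g k' y → k = k') :
    ∑ k, |Bf p (fun j => g k (q j)) a b| ≤
      (Real.sqrt (Fintype.card I) * Real.sqrt (En p a)) *
      (Real.sqrt (Fintype.card J) * Real.sqrt (En q b)) := by
  classical
  have h1 : ∀ k, |Bf p (fun j => g k (q j)) a b| ≤ ∑ x ∈ univ.image p, ∑ y ∈ univ.image q,
      if x = g k y then |At p a x| * |At q b y| else 0 := by
    intro k
    rw [Bf_eq_image p q a b (g k)]
    refine (Finset.abs_sum_le_sum_abs _ _).trans (Finset.sum_le_sum fun x _ => ?_)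
    refine (Finset.abs_sum_le_sum_abs _ _).trans (Finset.sum_le_sum fun y _ => ?_)
    split_ifs
    · rw [abs_mul]
    · simp
  calc ∑ k, |Bf p (fun j => g k (q j)) a b|
      ≤ ∑ k, ∑ x ∈ univ.image p, ∑ y ∈ univ.image q,
        (if x = g k y then |At p a x| * |At q b y| else 0) := Finset.sum_le_sum fun k _ => h1 k
    _ = ∑ x ∈ univ.image p, ∑ y ∈ univ.image q, ∑ k,
        (if x = g k y then |At p a x| * |At q b y| else 0) := by
        rw [Finset.sum_comm]
        refine Finset.sum_congr rfl fun x _ => ?_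
        rw [Finset.sum_comm]
    _ ≤ ∑ x ∈ univ.image p, ∑ y ∈ univ.image q, |At p a x| * |At q b y| := by
        refine Finset.sum_le_sum fun x _ => Finset.sum_le_sum fun y _ => ?_
        by_cases h : ∃ k, x = g k y
        · obtain ⟨k, hk⟩ := h
          rw [Finset.sum_eq_single k]
          · simp [hk]
          · intro k' _ hk'
            have : ¬ x = g k' y := fun h' => hk' (hg y k' k (h'.symm.trans hk))
            simp [this]
          · intro h; exact absurd (Finset.mem_univ k) h
        · have h' : ∀ k, ¬ x = g k y := fun k hk => h ⟨k, hk⟩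
          simp only [h', if_false, Finset.sum_const_zero]
          positivity
    _ = (∑ x ∈ univ.image p, |At p a x|) * (∑ y ∈ univ.image q, |At q b y|) := by
        rw [Finset.sum_mul_sum]
    _ ≤ _ := mul_le_mul (sum_abs_At_le p a) (sum_abs_At_le q b)
        (Finset.sum_nonneg fun _ _ => abs_nonneg _) (by positivity)

lemma En_shift {V' : Type*} [DecidableEq V'] (p : I → V) (g : V → V') (hg : Function.Injective g)
    (a : I → ℝ) : En (fun i => g (p i)) a = En p a := by
  unfold En Bf
  simp only [hg.eq_iff]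

lemma En_sum (p : I → V) (q : J → V) (ω : I → ℝ) (η : J → ℝ) :
    En (Sum.elim p q) (Sum.elim ω η) = En p ω + En q η + 2 * Bf p q ω η := by
  unfold En Bf
  simp only [Fintype.sum_sum_type]
  change (∑ i, ((∑ j, if p i = p j then ω i * ω j else 0) +
      ∑ j, if p i = q j then ω i * η j else 0)) +
      (∑ i, ((∑ j, if q i = p j then η i * ω j else 0) +
      ∑ j, if q i = q j then η i * η j else 0)) = _
  simp only [Finset.sum_add_distrib]
  have : ∑ x, ∑ x_1, (if q x = p x_1 then η x * ω x_1 else 0) =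
      ∑ i, ∑ j, (if p i = q j then ω i * η j else 0) := by
    rw [Finset.sum_comm]
    refine Finset.sum_congr rfl fun i _ => Finset.sum_congr rfl fun j _ => ?_
    by_cases h : p i = q j
    · simp [h, mul_comm]
    · have h' : ¬ q j = p i := fun h'' => h h''.symm
      simp [h, h']
  rw [this]; ring

lemma En_reindex (e : I ≃ J) (q : J → V) (ω : J → ℝ) :
    En (fun i => q (e i)) (fun i => ω (e i)) = En q ω := by
  unfold En Bf
  rw [← e.sum_comp]
  refine Finset.sum_congr rfl fun i _ => ?_
  rw [← e.sum_comp]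

lemma continuous_En (p : I → V) : Continuous (fun ω : I → ℝ => En p ω) := by
  unfold En Bf
  refine continuous_finsetSum _ fun i _ => continuous_finsetSum _ fun j _ => ?_
  split_ifs
  · fun_prop
  · fun_prop

end Form

/-- Weighted Jensen inequality. -/
lemma gibbs_le {Ω : Type*} [MeasurableSpace Ω] (m : Measure Ω) (a c : Ω → ℝ) (ha : ∀ x, 0 ≤ a x)
    (hia : Integrable a m) (hac : Integrable (fun x => a x * c x) m)
    (hae : Integrable (fun x => a x * Real.exp (c x)) m) (hpos : 0 < ∫ x, a x ∂m) :
    (∫ x, a x ∂m) * Real.exp ((∫ x, a x * c x ∂m) / ∫ x, a x ∂m) ≤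
      ∫ x, a x * Real.exp (c x) ∂m := by
  set t := (∫ x, a x * c x ∂m) / ∫ x, a x ∂m with ht
  have h1 : ∫ x, Real.exp t * (a x * (1 - t) + a x * c x) ∂m ≤ ∫ x, a x * Real.exp (c x) ∂m := by
    refine integral_mono (((hia.mul_const _).add hac).const_mul _) hae fun x => ?_
    simp only []
    have h2 : (c x - t) + 1 ≤ Real.exp (c x - t) := Real.add_one_le_exp _
    have h3 : Real.exp (c x) = Real.exp t * Real.exp (c x - t) := by
      rw [← Real.exp_add]; ring_nf
    rw [h3]
    have h4 := mul_le_mul_of_nonneg_left h2 (mul_nonneg (Real.exp_pos t).le (ha x))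
    nlinarith
  rw [integral_const_mul, integral_add (hia.mul_const _) hac, integral_mul_const] at h1
  have h5 : ∫ x, a x * c x ∂m = t * ∫ x, a x ∂m := by
    rw [ht]; field_simp
  rw [h5] at h1
  nlinarith

end Pool.Agent.Q215.Chg
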